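import Pool.Agent.Y183.MSG.Core
set_option linter.unusedVariables false
open Filter Topology Polynomial

namespace Pool.Agent.Results.MP_d164ca_an.PolynomialGrowth

open Pool.Agent.Helper771.MultSeq Pool.Agent.Y520.MS Pool.Agent.Y183.MSG

/-- All complex zeros of the real polynomial `p` are real (the zero polynomial is admitted). -/
def Hyperbolic (p : ℝ[X]) : Prop := p = 0 ∨ ∀ z : ℂ, aeval z p = 0 → z.im = 0

/-- `γ` is a multiplier sequence: `∑ γ_k a_k x^k` is hyperbolic whenever `∑ a_k x^k` is. -/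
def IsMultSeq (γ : ℕ → ℝ) : Prop :=
  ∀ p : ℝ[X], Hyperbolic p → Hyperbolic (p.sum fun k a => monomial k (γ k * a))

/-- `F` is real at `0, 1, 2, …` and `(F(k))` is a multiplier sequence. -/
def Generates (F : ℂ → ℂ) : Prop := ∃ γ : ℕ → ℝ, (∀ k : ℕ, F k = γ k) ∧ IsMultSeq γ

theorem ms_signed {P : ℝ[X]} {r : ℝ} (hr : r ≠ 0) :
    IsMultiplierSequence (fun k => P.eval (k : ℝ) * r ^ k) ↔ IsMultiplierSequence (fun k => P.eval (k : ℝ)) := by
  have hgeom : ∀ s : ℝ, s ≠ 0 → IsMultiplierSequence (fun k => s ^ k) := by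
    intro s hs
    rcases lt_or_gt_of_ne hs with h | h
    · have h1 := ms_mul ms_alt (ms_geom 1 (neg_pos.2 h))
      convert h1 using 2 with k
      rw [one_mul, ← mul_pow]
      ring
    · have h1 := ms_geom 1 h
      simpa using h1
  constructor
  · intro h
    have h1 := ms_mul h (hgeom _ (inv_ne_zero hr))
    convert h1 using 2 with k
    rw [mul_assoc, ← mul_pow, mul_inv_cancel₀ hr, one_pow, mul_one]
  · intro h
    exact ms_mul h (hgeom _ hr)

theorem growth {F : ℂ → ℂ} {ρ C : ℝ} {M : ℕ} (hρ : 0 < ρ)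
    (hup : ∃ᶠ k : ℕ in atTop, ‖F k‖ ≤ C * ((k : ℝ) + 1) ^ M * ρ ^ k)
    (hlow : ∀ q : ℝ, 0 < q → q < ρ → ∃ᶠ k : ℕ in atTop, q ^ k ≤ ‖F k‖) :
    Generates F ↔ ∃ P : ℝ[X], IsMultSeq (fun k => P.eval (k : ℝ)) ∧
      ∃ r : ℝ, (r = ρ ∨ r = -ρ) ∧ ∀ k : ℕ, F k = ((P.eval (k : ℝ) : ℝ) : ℂ) * (r : ℂ) ^ k := by
  constructor
  · rintro ⟨γ, hγ, hms⟩
    have e : ∀ k : ℕ, ‖F k‖ = |γ k| := fun k => by rw [hγ k, Complex.norm_real, Real.norm_eq_abs]
    simp only [e] at hup hlow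
    obtain ⟨P, hP⟩ := poly_exp_of_bounds (γ := γ) hms hρ hup hlow
    have : ∃ r : ℝ, (r = ρ ∨ r = -ρ) ∧ ∀ k : ℕ, γ k = P.eval (k : ℝ) * r ^ k := by
      rcases hP with h | h
      · exact ⟨ρ, Or.inl rfl, h⟩
      · exact ⟨-ρ, Or.inr rfl, h⟩
    obtain ⟨r, hr, hr2⟩ := this
    have hr0 : r ≠ 0 := by
      rcases hr with rfl | rfl
      · exact hρ.ne'
      · exact neg_ne_zero.2 hρ.ne'
    refine ⟨P, ?_, r, hr, fun k => ?_⟩
    · refine (ms_signed hr0).1 ?_
      have : γ = fun k : ℕ => P.eval (k : ℝ) * r ^ k := funext hr2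
      rw [← this]
      exact hms
    · rw [hγ k, hr2 k]
      push_cast
      ring
  · rintro ⟨P, hP, r, hr, hF⟩
    have hr0 : r ≠ 0 := by
      rcases hr with rfl | rfl
      · exact hρ.ne'
      · exact neg_ne_zero.2 hρ.ne'
    refine ⟨fun k => P.eval (k : ℝ) * r ^ k, fun k => ?_, (ms_signed hr0).2 hP⟩
    rw [hF k]
    push_cast
    ring

theorem rational {φ ψ : ℂ[X]} {c : ℂ} (hψ : ∀ k : ℕ, ψ.eval (k : ℂ) ≠ 0) :
    Generates (fun z => φ.eval z / ψ.eval z * Complex.exp (c * z)) ↔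
      φ = 0 ∨ ((∃ r : ℝ, Complex.exp c = r) ∧ ∃ P : ℝ[X], φ = ψ * P.map (algebraMap ℝ ℂ) ∧
        IsMultSeq (fun k => P.eval (k : ℝ))) := by
  have hexp : ∀ k : ℕ, Complex.exp (c * k) = Complex.exp c ^ k := by
    intro k
    rw [mul_comm, Complex.exp_nat_mul]
  have hmap : ∀ (P : ℝ[X]) (k : ℕ), (P.map (algebraMap ℝ ℂ)).eval (k : ℂ) = ((P.eval (k : ℝ) : ℝ) : ℂ) := by
    intro P k
    have e : (k : ℂ) = algebraMap ℝ ℂ (k : ℝ) := by simp
    rw [eval_map, e, eval₂_at_apply]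
    rfl
  constructor
  · intro hG
    by_cases hφ : φ = 0
    · exact Or.inl hφ
    right
    set ρ : ℝ := ‖Complex.exp c‖ with hρdef
    have hρ : 0 < ρ := norm_pos_iff.2 (Complex.exp_ne_zero c)
    obtain ⟨A, hA, hA2⟩ := norm_eval_le φ
    obtain ⟨B, hB, hB2⟩ := norm_eval_le ψ
    obtain ⟨a, ha, ha2⟩ := eventually_le_norm hφ
    obtain ⟨b, hb, hb2⟩ := forall_le_norm hψ
    have hn : ∀ k : ℕ, ‖φ.eval (k : ℂ) / ψ.eval (k : ℂ) * Complex.exp (c * k)‖ =
        ‖φ.eval (k : ℂ)‖ / ‖ψ.eval (k : ℂ)‖ * ρ ^ k := by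
      intro k
      rw [norm_mul, norm_div, hexp, norm_pow]
    obtain ⟨P, hP, r, hr, hF⟩ := (growth (F := fun z => φ.eval z / ψ.eval z * Complex.exp (c * z))
      (C := A / b) (M := φ.natDegree) hρ
      (Eventually.frequently <| Eventually.of_forall fun k => by
        rw [hn k]
        refine mul_le_mul_of_nonneg_right ?_ (by positivity)
        rw [div_mul_eq_mul_div]
        exact div_le_div₀ (by positivity) (hA2 k) hb (hb2 k))
      (fun q hq0 hq1 => by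
        have hlim : Tendsto (fun n : ℕ => (n : ℝ) ^ ψ.natDegree * (q / ρ) ^ n) atTop (𝓝 0) :=
          tendsto_pow_const_mul_const_pow_of_abs_lt_one _ (by
            rw [abs_of_pos (by positivity), div_lt_one hρ]; exact hq1)
        have hlim1 : Tendsto (fun n : ℕ => (q / ρ) ^ n) atTop (𝓝 0) :=
          tendsto_pow_atTop_nhds_zero_of_lt_one (by positivity) (by rw [div_lt_one hρ]; exact hq1)
        have hε : 0 < a / B / (2 ^ ψ.natDegree) := by positivity
        refine Eventually.frequently ?_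
        filter_upwards [hlim.eventually (gt_mem_nhds hε), ha2, eventually_ge_atTop 1] with k h1 h2 h3
        rw [hn k]
        have hψk : 0 < ‖ψ.eval (k : ℂ)‖ := norm_pos_iff.2 (hψ k)
        have h4 : ((k : ℝ) + 1) ^ ψ.natDegree ≤ 2 ^ ψ.natDegree * (k : ℝ) ^ ψ.natDegree := by
          rw [← mul_pow]
          have : (1 : ℝ) ≤ k := by exact_mod_cast h3
          gcongr
          linarith
        have h5 : (q / ρ) ^ k * ‖ψ.eval (k : ℂ)‖ ≤ ‖φ.eval (k : ℂ)‖ := by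
          calc (q / ρ) ^ k * ‖ψ.eval (k : ℂ)‖ ≤ (q / ρ) ^ k * (B * (2 ^ ψ.natDegree * (k : ℝ) ^ ψ.natDegree)) := by
                refine mul_le_mul_of_nonneg_left ((hB2 k).trans ?_) (by positivity)
                exact mul_le_mul_of_nonneg_left h4 hB.le
            _ = B * 2 ^ ψ.natDegree * ((k : ℝ) ^ ψ.natDegree * (q / ρ) ^ k) := by ring
            _ ≤ B * 2 ^ ψ.natDegree * (a / B / (2 ^ ψ.natDegree)) :=
                mul_le_mul_of_nonneg_left h1.le (by positivity)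
            _ = a := by field_simp
            _ ≤ _ := h2
        have h6 : (q / ρ) ^ k ≤ ‖φ.eval (k : ℂ)‖ / ‖ψ.eval (k : ℂ)‖ := by rwa [le_div_iff₀ hψk]
        calc q ^ k = (q / ρ) ^ k * ρ ^ k := by rw [← mul_pow, div_mul_cancel₀ _ hρ.ne']
          _ ≤ _ := mul_le_mul_of_nonneg_right h6 (by positivity))).1 hG
    have hr0 : (r : ℂ) ≠ 0 := by
      rw [Complex.ofReal_ne_zero]
      rcases hr with rfl | rfl
      · exact hρ.ne'
      · exact neg_ne_zero.2 hρ.ne'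
    have hω : Complex.exp c / r ≠ 0 := div_ne_zero (Complex.exp_ne_zero c) hr0
    have key : ∀ k : ℕ, φ.eval (k : ℂ) * (Complex.exp c / r) ^ k =
        (ψ * P.map (algebraMap ℝ ℂ)).eval (k : ℂ) := by
      intro k
      have h1 := hF k
      simp only [hexp] at h1
      rw [eval_mul, hmap, div_pow, ← mul_div_assoc, div_eq_iff (pow_ne_zero _ hr0)]
      rw [div_mul_eq_mul_div, div_eq_iff (hψ k)] at h1
      rw [h1]
      ring
    rcases omega_one hω key with h | h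
    · exact absurd h hφ
    refine ⟨⟨r, by rwa [div_eq_one_iff_eq hr0] at h⟩, P, ?_, hP⟩
    refine Polynomial.eq_of_infinite_eval_eq _ _ ?_
    refine (Set.infinite_range_of_injective (Nat.cast_injective (R := ℂ))).mono ?_
    rintro _ ⟨k, rfl⟩
    have := key k
    rw [h, one_pow, mul_one] at this
    exact this
  · rintro (rfl | ⟨⟨r, hr⟩, P, hφ, hP⟩)
    · refine ⟨fun _ => 0, fun k => by simp, ms_const 0⟩
    · have hr0 : r ≠ 0 := by
        rintro rfl
        exact Complex.exp_ne_zero c (by simpa using hr)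
      refine ⟨fun k => P.eval (k : ℝ) * r ^ k, fun k => ?_, (ms_signed hr0).2 hP⟩
      simp only
      rw [hφ, eval_mul, hmap, hexp, hr, mul_div_cancel_left₀ _ (hψ k)]
      push_cast
      ring

/-- (1) Let `ρ > 0`, `|F(k)| ≤ C (k+1)^M ρ^k` for infinitely many `k`, and for every `q < ρ` let
`|F(k)| ≥ q^k` for infinitely many `k`. Then `(F(k))` is a multiplier sequence if and only if `F(k) = P(k) r^k` for all `k`,
where `r = ρ` or `r = -ρ` and `P` is a real polynomial for which `(P(k))` is a multiplier sequence.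
(2) Let `F(z) = φ(z)/ψ(z) e^{cz}` with polynomials `φ, ψ` and `ψ(k) ≠ 0` for all `k`. Then `F` generates a
multiplier sequence if and only if `φ = 0`, or `e^c` is real and `φ/ψ` is a real polynomial `P` for which
`(P(k))` is a multiplier sequence. -/
theorem result :
    (∀ (F : ℂ → ℂ) (ρ C : ℝ) (M : ℕ), 0 < ρ →
      (∃ᶠ k : ℕ in atTop, ‖F k‖ ≤ C * ((k : ℝ) + 1) ^ M * ρ ^ k) →
      (∀ q : ℝ, 0 < q → q < ρ → ∃ᶠ k : ℕ in atTop, q ^ k ≤ ‖F k‖) →
      (Generates F ↔ ∃ P : ℝ[X], IsMultSeq (fun k => P.eval (k : ℝ)) ∧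
        ∃ r : ℝ, (r = ρ ∨ r = -ρ) ∧ ∀ k : ℕ, F k = ((P.eval (k : ℝ) : ℝ) : ℂ) * (r : ℂ) ^ k)) ∧
    (∀ (φ ψ : ℂ[X]) (c : ℂ), (∀ k : ℕ, ψ.eval (k : ℂ) ≠ 0) →
      (Generates (fun z => φ.eval z / ψ.eval z * Complex.exp (c * z)) ↔
        φ = 0 ∨ ((∃ r : ℝ, Complex.exp c = r) ∧ ∃ P : ℝ[X], φ = ψ * P.map (algebraMap ℝ ℂ) ∧
          IsMultSeq (fun k => P.eval (k : ℝ))))) :=
  ⟨fun F ρ C M hρ hup hlow => growth hρ hup hlow, fun φ ψ c hψ => rational hψ⟩

end Pool.Agent.Results.MP_d164ca_an.PolynomialGrowth
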